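import Pool.Agent.Helper68.LM2.St

/-! Module HLA of project LM2: maximal functions in one variable, strong type. -/

set_option autoImplicit false

open MeasureTheory Set Filter Topology
open scoped ENNReal RealInnerProductSpace

namespace Pool.Agent.Helper67.LM2

open Pool.Agent.Helper68.LM2 Pool.Agent.Helper68.LM

theorem meas_Mx {h : ℝ → ℝ≥0∞} (hh : Measurable h) : Measurable (Mx h) := by
  unfold Mx
  apply Measurable.iSup
  intro i
  apply Measurable.const_mul
  have h1 : Measurable (fun q : ℝ × ℝ => h (q.1 + q.2)) := hh.comp (by fun_prop)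
  exact h1.lintegral_prod_right'

theorem meas_M1 {g : ℝ × ℝ → ℝ≥0∞} (hg : Measurable g) : Measurable (M1 g) := by
  unfold M1 Mx
  apply Measurable.iSup
  intro i
  apply Measurable.const_mul
  have h1 : Measurable (fun q : (ℝ × ℝ) × ℝ => g (q.1.1 + q.2, q.1.2)) := hg.comp (by fun_prop)
  exact h1.lintegral_prod_right'

theorem meas_M2 {g : ℝ × ℝ → ℝ≥0∞} (hg : Measurable g) : Measurable (M2 g) := by
  unfold M2 Mx
  apply Measurable.iSup
  intro i
  apply Measurable.const_mul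
  have h1 : Measurable (fun q : (ℝ × ℝ) × ℝ => g (q.1.1, q.1.2 + q.2)) := hg.comp (by fun_prop)
  exact h1.lintegral_prod_right'

theorem Mx_split (h : ℝ → ℝ≥0∞) (lam : ℝ) (hlam : 0 < lam) (x : ℝ) :
    Mx h x ≤ ENNReal.ofReal (lam / 2) +
      Mx ({y | ENNReal.ofReal (1 / 4 * lam) < h y}.indicator h) x := by
  set S : Set ℝ := {y | ENNReal.ofReal (1 / 4 * lam) < h y} with hS
  have hpt : ∀ z : ℝ, h z ≤ ENNReal.ofReal (1 / 4 * lam) + S.indicator h z := by
    intro z
    by_cases hz : z ∈ S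
    · rw [indicator_of_mem hz]
      exact le_add_self
    · have hz' : h z ≤ ENNReal.ofReal (1 / 4 * lam) := not_lt.mp hz
      exact hz'.trans le_self_add
  unfold Mx
  apply iSup_le
  intro i
  have h2i : (0 : ℝ) < (2 : ℝ) ^ i := by positivity
  calc ENNReal.ofReal ((2 : ℝ) ^ (-i)) * ∫⁻ s in Icc (-((2 : ℝ) ^ i)) ((2 : ℝ) ^ i), h (x + s)
      ≤ ENNReal.ofReal ((2 : ℝ) ^ (-i)) * ∫⁻ s in Icc (-((2 : ℝ) ^ i)) ((2 : ℝ) ^ i),
          (ENNReal.ofReal (1 / 4 * lam) + S.indicator h (x + s)) := by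
        gcongr
        exact hpt _
    _ = ENNReal.ofReal ((2 : ℝ) ^ (-i)) * (∫⁻ _s in Icc (-((2 : ℝ) ^ i)) ((2 : ℝ) ^ i),
          ENNReal.ofReal (1 / 4 * lam)) + ENNReal.ofReal ((2 : ℝ) ^ (-i)) *
          ∫⁻ s in Icc (-((2 : ℝ) ^ i)) ((2 : ℝ) ^ i), S.indicator h (x + s) := by
        rw [lintegral_add_left measurable_const, mul_add]
    _ ≤ _ := by
        refine add_le_add (le_of_eq ?_) (le_iSup (fun i : ℤ => ENNReal.ofReal ((2 : ℝ) ^ (-i)) *
          ∫⁻ s in Icc (-((2 : ℝ) ^ i)) ((2 : ℝ) ^ i), S.indicator h (x + s)) i)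
        rw [setLIntegral_const, Real.volume_Icc, ← ENNReal.ofReal_mul (by positivity),
          ← ENNReal.ofReal_mul (by positivity)]
        congr 1
        rw [zpow_neg]
        field_simp
        ring

theorem Mx_weak (hHW : StHW) {h : ℝ → ℝ≥0∞} (hh : Measurable h) (lam : ℝ) (hlam : 0 < lam) :
    volume {x | ENNReal.ofReal lam < Mx h x} ≤
      ENNReal.ofReal (20 / lam) * ∫⁻ x in {x | ENNReal.ofReal (1 / 4 * lam) < h x}, h x := by
  set S : Set ℝ := {y | ENNReal.ofReal (1 / 4 * lam) < h y} with hS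
  have hSm : MeasurableSet S := measurableSet_lt measurable_const hh
  have hsub : {x | ENNReal.ofReal lam < Mx h x} ⊆
      {x | ENNReal.ofReal (lam / 2) < Mx (S.indicator h) x} := by
    intro x hx
    by_contra hcon
    have hcon' : Mx (S.indicator h) x ≤ ENNReal.ofReal (lam / 2) := not_lt.mp hcon
    have h1 : Mx h x ≤ ENNReal.ofReal (lam / 2) + ENNReal.ofReal (lam / 2) :=
      (Mx_split h lam hlam x).trans (add_le_add le_rfl hcon')
    rw [← ENNReal.ofReal_add (by positivity) (by positivity), add_halves] at h1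
    exact absurd hx (not_lt.mpr h1)
  calc volume {x | ENNReal.ofReal lam < Mx h x}
      ≤ volume {x | ENNReal.ofReal (lam / 2) < Mx (S.indicator h) x} := measure_mono hsub
    _ ≤ ENNReal.ofReal (10 / (lam / 2)) * ∫⁻ x, S.indicator h x :=
        hHW _ (hh.indicator hSm) (lam / 2) (by positivity)
    _ = _ := by
        rw [lintegral_indicator hSm]
        congr 2
        field_simp
        norm_num

theorem hHLA (hLCG : StLCG) (hHW : StHW) : StHLA := by
  intro r hr
  obtain ⟨C2, hC2, hM⟩ := hLCG.2 r hr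
  have hline : ∀ h : ℝ → ℝ≥0∞, Measurable h →
      ∫⁻ x, Mx h x ^ r ≤ ENNReal.ofReal (C2 * (20 * (1 / 4) ^ (1 - r))) * ∫⁻ x, h x ^ r := by
    intro h hh
    exact hM ℝ volume h (Mx h) (1 / 4) 20 hh (meas_Mx hh) (by norm_num) (by norm_num)
      (fun lam hlam => Mx_weak hHW hh lam hlam)
  refine ⟨C2 * (20 * (1 / 4) ^ (1 - r)), by positivity, fun h hh => ⟨meas_Mx hh, hline h hh⟩,
    fun g hg => ⟨meas_M1 hg, meas_M2 hg, ?_, ?_⟩⟩
  · have e1 : ∫⁻ z, M1 g z ^ r = ∫⁻ b, ∫⁻ a, Mx (fun a => g (a, b)) a ^ r := by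
      rw [Measure.volume_eq_prod, lintegral_prod_symm _ ((meas_M1 hg).pow_const r).aemeasurable]
      rfl
    have e2 : ∫⁻ z, g z ^ r = ∫⁻ b, ∫⁻ a, g (a, b) ^ r := by
      rw [Measure.volume_eq_prod, lintegral_prod_symm _ (hg.pow_const r).aemeasurable]
    rw [e1, e2, ← lintegral_const_mul]
    · refine lintegral_mono fun b => hline _ (hg.comp (by fun_prop))
    · have h1 : Measurable (fun q : ℝ × ℝ => g (q.2, q.1) ^ r) := (hg.comp (by fun_prop)).pow_const r
      exact h1.lintegral_prod_right'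
  · have e1 : ∫⁻ z, M2 g z ^ r = ∫⁻ a, ∫⁻ b, Mx (fun b => g (a, b)) b ^ r := by
      rw [Measure.volume_eq_prod, lintegral_prod _ ((meas_M2 hg).pow_const r).aemeasurable]
      rfl
    have e2 : ∫⁻ z, g z ^ r = ∫⁻ a, ∫⁻ b, g (a, b) ^ r := by
      rw [Measure.volume_eq_prod, lintegral_prod _ (hg.pow_const r).aemeasurable]
    rw [e1, e2, ← lintegral_const_mul]
    · refine lintegral_mono fun a => hline _ (hg.comp (by fun_prop))
    · have h1 : Measurable (fun q : ℝ × ℝ => g (q.1, q.2) ^ r) := (hg.comp (by fun_prop)).pow_const r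
      exact h1.lintegral_prod_right'

end Pool.Agent.Helper67.LM2
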